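import Pool.Agent.Helper5.BLD.Kn
import Pool.Agent.Helper10.BLD.St1
import Pool.Agent.Helper10.JET.Spn

/-! [J1S]: one unit direction: the fields `r1` and `spn` of `J1` for the pairs (corner, point of the deep corner). -/

set_option autoImplicit false

namespace Pool.Agent.Helper5.BLD

open Finset Filter Topology Pool.Agent.Helper69.RK Pool.Agent.Helper31.EC Pool.Agent.Helper31.EC.Sp
open Pool.Agent.Helper31.EC.QS Pool.Agent.Helper10.BLD
open Pool.Agent.Helper38.NS (dp dL)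
open Pool.Agent.Helper10.JET (tc NLE SPN spn_vel)
open Pool.Agent.Helper13.AM (CD)
open Pool.Agent.Helper5.DO (py py_eval py_deg PU fu tc_lead py_coeff)

noncomputable section

/-! ### `r1` -/

section

variable {T : Sp} {N r : ℕ} {κ : ℝ} {h0 : 0 < κ} {h1 : 1 ≤ κ} {c : CD T 0 N r} {cb : CD (dp T κ h0) 0 N r}

/-- **[J1S] r1** -/
theorem j1_r1 (t : Trc h0 h1 c cb) {w : Fin N → ℝ} {l : Fin N} {K : ℕ} (wl : w l = K) (hT : Top cb w l) :
    I (univ.sup fun i => dg (fu c l K i) 1) (uL κ h0 cb.O) ⊥ = 0 := by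
  have h2 := hT K wl
  have h3 : I (uL κ h0 (univ.sup fun i => dg ((py (cb.cf i l)).coeff K) 1)) (uL κ h0 cb.O) ⊥ = 0 := by
    rw [← uL_bot κ h0, uL_I, h2, mul_zero]
  refine I_zero_mono h3 (le_trans ?_ le_sup_left) le_sup_left
  refine Finset.sup_le fun i _ => ?_
  have e : (py (c.cf i l)).coeff K = uQ κ h0 h1 ((py (cb.cf i l)).coeff K) := by
    rw [t.cf i l, Polynomial.coeff_map]
  have h4 : dg ((py (c.cf i l)).coeff K) 1 ≤ uL κ h0 (univ.sup fun i => dg ((py (cb.cf i l)).coeff K) 1) := by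
    rw [e, uQ_dg κ h0 h1 _ le_rfl]
    exact uL_mono κ h0 ((dg_mono _ (div_le_one_of κ h1 le_rfl)).trans
      (Finset.le_sup (f := fun i => dg ((py (cb.cf i l)).coeff K) 1) (mem_univ i)))
  exact (Kn T 1 le_rfl _).mul_mem (natCast_mem _ K) h4

end

/-! ### `spn` -/

section

variable {S : Sp} {N r : ℕ} {c : CD S 0 N r} {w : Fin N → ℝ} {z l : Fin N} {ρ : ℝ} {K : ℕ} {O : S.L}

/-- derivatives of order larger than the degree vanish -/
theorem tc_zero_of {P : Polynomial (QS S)} (hP : ∀ m, K < m → P.coeff m = 0) (t : QS S) {m : ℕ} (hm : K < m) :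
    tc P t m = 0 := by
  unfold Pool.Agent.Helper10.JET.tc
  have h4 : Polynomial.hasseDeriv m P = 0 := by
    ext a
    rw [Polynomial.hasseDeriv_coeff, Polynomial.coeff_zero, hP _ (by omega), mul_zero]
  rw [h4, Polynomial.eval_zero]

/-- **[J1S] spn** -/
theorem j1_spn (A : c.Ax w z ρ) (hK : 2 ≤ K) (cut : ∀ i m, K < m → (py (c.cf i l)).coeff m = 0)
    (htO : dg (c.q 0) 1 ≤ O)
    (hj : ∀ m : ℕ, m < K → ∃ f : QS S, dg f 1 ≤ O ∧ ∀ i, tc (py (c.cf i l)) (c.q 0) m = f) (hL : NLE O c.xi)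
    (hN : ∀ (E : ∀ k, (S.F k).Ω → Prop) (hE : 0 < ul (S.pr E)) (D : ℕ) (κ : ℝ), 0 < κ → κ ≤ 1 →
      Pool.Agent.Helper5.DO.NR D (fun a => QS.rest E hE (c.pt a)) ⊥ κ)
    (κ : ℝ) (_h0 : 0 < κ) (h1 : κ ≤ 1) (F : Fin 2 → QS S) (hF : vd F 1 ≤ O)
    (hc : ∀ i, F 0 + F 1 * fu c l K i ∈ Id S κ) (j : Fin 2) : F j ∈ Id S κ := by
  have hi := ne_of A
  have hu : IsUnit (K : QS S) := by
    obtain ⟨n, rfl⟩ : ∃ n, K = n + 1 := ⟨K - 1, by omega⟩
    rw [Nat.cast_add, Nat.cast_one]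
    exact Pool.Agent.Helper57.TA.isUnit_succ (S := S) n
  have huk : dg (K : QS S) 1 ≤ O := natCast_mem (Kn S 1 le_rfl O) K
  have key := spn_vel hL (fun i => py (c.cf i l)) (fun i => cf_PU i l) (t := c.q 0) (y := c.R l) (fun i => by
      rw [py_eval]
      exact (A.ln.curve i l).symm) htO (K := K) (D := max c.g 1) (le_max_right _ _)
    (fun i => (py_deg _).trans (le_max_left _ _)) one_pos le_rfl
    (fun i m hm => by
      rw [tc_zero_of (cut i) _ hm]
      exact (Id S 1).zero_mem)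
    (fun i m hm => by
      obtain ⟨f, hf1, hf2⟩ := hj m hm
      rw [hf2 i]
      exact hf1)
    (fun i i' m hm => by
      obtain ⟨f, hf1, hf2⟩ := hj m hm
      rw [hf2 i, hf2 i', sub_self]
      exact (Id S 1).zero_mem)
    (fun E hE ρ' hρ0 hρ1 => by
      have h3 := (hN E hE (max c.g 1) ρ' hρ0 hρ1).sub (![Sum.inl 0, Sum.inr l] : Fin 2 → Fin (0 + 1) ⊕ Fin N) (by
        intro a b hab
        fin_cases a <;> fin_cases b
        · rfl
        · cases hab
        · cases hab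
        · rfl)
      have e : (fun a => QS.rest E hE (c.pt ((![Sum.inl 0, Sum.inr l] : Fin 2 → Fin (0 + 1) ⊕ Fin N) a))) =
          ![QS.rest E hE (c.q 0), QS.rest E hE (c.R l)] := by
        funext a
        fin_cases a <;> rfl
      rwa [e] at h3) h1 hu huk
  refine key F hF (fun i => ?_) j
  rw [Fin.sum_univ_one, Fin.succ_zero_eq_one]
  have e : (K : QS S) * tc (py (c.cf i l)) (c.q 0) K = fu c l K i := by
    rw [tc_lead (cut i)]
    rfl
  show F 0 + F 1 * ((K : QS S) * tc (py (c.cf i l)) (c.q 0) K) ∈ Id S κ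
  rw [e]
  exact hc i

end

end

end Pool.Agent.Helper5.BLD
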