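import Pool.Agent.Helper5.DO.TilX
import Pool.Agent.Helper10.JET.Near2

/-! [KNAT]: one unit direction: the lowest vertical weight is a natural number `≥ 2`. -/

set_option autoImplicit false

namespace Pool.Agent.Helper5.BLD

open Finset Filter Topology Pool.Agent.Helper69.RK Pool.Agent.Helper31.EC Pool.Agent.Helper31.EC.Sp
open Pool.Agent.Helper31.EC.QS
open Pool.Agent.Helper57.TA (sc wgt)
open Pool.Agent.Helper10.JET (tc NL weight_nat' near_known near_common)
open Pool.Agent.Helper13.AM (CD)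
open Pool.Agent.Helper5.DO (p0 p0_PU py py_PU py_eval py_deg H_t sc_lt PU PU_C PU_mono)

noncomputable section

variable {S : Sp} {N r : ℕ}

/-- only pure monomials -/
theorem pure_of_deg' {w : Fin N → ℝ} {l : Fin N} {K : ℕ} (hl : w l ≤ K) (hl0 : 0 ≤ w l) (low : ∀ j, w l ≤ w j)
    {F : MvPolynomial (Fin (0 + 1) ⊕ Fin N) (QS S)}
    (hF : ∀ n, F.coeff n ≠ 0 → wgt (Sum.elim (fun _ => 1) w) n < w l) {n : Fin (0 + 1) ⊕ Fin N →₀ ℕ}
    (hn : F.coeff n ≠ 0) : n (Sum.inl 0) < K ∧ n = Finsupp.single (Sum.inl 0) (n (Sum.inl 0)) := by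
  have h1 := hF n hn
  unfold Pool.Agent.Helper57.TA.wgt at h1
  rw [Fintype.sum_sum_type] at h1
  simp only [Sum.elim_inl, Sum.elim_inr, mul_one] at h1
  have h2 : ∑ a : Fin (0 + 1), ((n (Sum.inl a) : ℕ) : ℝ) = n (Sum.inl 0) := by
    rw [Fin.sum_univ_one]
  rw [h2] at h1
  have h3 : ∀ j, 0 ≤ ((n (Sum.inr j) : ℕ) : ℝ) * w j := fun j => mul_nonneg (Nat.cast_nonneg _) (hl0.trans (low j))
  have h4 : ∀ j, n (Sum.inr j) = 0 := by
    intro j
    by_contra hc
    have h5 : (1 : ℝ) ≤ n (Sum.inr j) := by exact_mod_cast Nat.one_le_iff_ne_zero.mpr hc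
    have h6 : w j ≤ ((n (Sum.inr j) : ℕ) : ℝ) * w j := by
      have := mul_le_mul_of_nonneg_right h5 (hl0.trans (low j))
      linarith
    have h7 := Finset.single_le_sum (f := fun j => ((n (Sum.inr j) : ℕ) : ℝ) * w j) (fun j _ => h3 j) (mem_univ j)
    have h8 : (0 : ℝ) ≤ n (Sum.inl 0) := Nat.cast_nonneg _
    have h9 := low j
    linarith
  constructor
  · have h7 : 0 ≤ ∑ j, ((n (Sum.inr j) : ℕ) : ℝ) * w j := Finset.sum_nonneg fun j _ => h3 j
    have h8 : ((n (Sum.inl 0) : ℕ) : ℝ) < K := by linarith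
    exact_mod_cast h8
  · ext a
    rcases a with a | a
    · have e : a = 0 := Fin.ext (by omega)
      rw [e, Finsupp.single_eq_same]
    · rw [h4 a, Finsupp.single_eq_of_ne (by simp)]

theorem p0_eval' {w : Fin N → ℝ} {l : Fin N} {K : ℕ} (hl : w l ≤ K) (hl0 : 0 ≤ w l) (low : ∀ j, w l ≤ w j)
    {F : MvPolynomial (Fin (0 + 1) ⊕ Fin N) (QS S)}
    (hF : ∀ n, F.coeff n ≠ 0 → wgt (Sum.elim (fun _ => 1) w) n < w l) (x : Fin (0 + 1) ⊕ Fin N → QS S) :
    MvPolynomial.eval x F = (p0 K F).eval (x (Sum.inl 0)) := by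
  classical
  unfold Pool.Agent.Helper5.DO.p0
  rw [Polynomial.eval_finsetSum, MvPolynomial.eval_eq']
  simp only [Polynomial.eval_monomial]
  have hs : F.support ⊆ (range K).image fun m => Finsupp.single (Sum.inl 0) m := by
    intro n hn
    obtain ⟨h1, h2⟩ := pure_of_deg' hl hl0 low hF (MvPolynomial.mem_support_iff.mp hn)
    rw [mem_image]
    exact ⟨n (Sum.inl 0), mem_range.mpr h1, h2.symm⟩
  rw [Finset.sum_subset hs, Finset.sum_image]
  · refine Finset.sum_congr rfl fun m _ => ?_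
    congr 1
    rw [Finset.prod_eq_single (Sum.inl 0 : Fin (0 + 1) ⊕ Fin N)]
    · rw [Finsupp.single_eq_same]
    · intro b _ hb
      rw [Finsupp.single_eq_of_ne hb, pow_zero]
    · intro h
      exact absurd (mem_univ _) h
  · intro a _ b _ h
    exact Finsupp.single_injective _ h
  · intro n _ hn
    rw [MvPolynomial.notMem_support_iff.mp hn, zero_mul]

theorem PU_comp {A : S.L} {P Q : Polynomial (QS S)} (hP : P ∈ PU A) (hQ : Q ∈ PU A) : P.comp Q ∈ PU A := by
  rw [Polynomial.comp_eq_sum_left]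
  exact (PU A).sum_mem fun m _ => (PU A).mul_mem (PU_C (hP m)) ((PU A).pow_mem hQ m)

variable {c : CD S 0 N r} {w : Fin N → ℝ} {z l : Fin N} {ρ : ℝ}

/-- the box of scale `s` of the lowest coordinate in the one-space form -/
theorem jbx (A : c.Ax w z ρ) (low : ∀ j, w l ≤ w j) {s : ℝ} (hs0 : 0 ≤ s) (hs : w z * s ≤ 1) :
    Pool.Agent.Helper10.JET.Bx (c.K s) (c.q 0) (c.R l) (w l * s) := by
  obtain ⟨K, hK⟩ := exists_nat_ge (w l)
  have hl0 : 0 ≤ w l := zero_le_one.trans (A.w1 l).le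
  have kF : ∀ n, dg ((c.F s l).coeff n) 1 ≤ c.K s := fun n => (A.bx.litF s l n).dg_le (A.bx.bdd s) le_rfl
  have kq : dg (c.q0 s 0) 1 ≤ c.K s := (A.bx.litq s 0).dg_le (A.bx.bdd s) le_rfl
  refine ⟨(p0 K (c.F s l)).comp (Polynomial.X - Polynomial.C (c.q0 s 0)), ?_, ?_⟩
  · exact PU_comp (p0_PU kF) ((PU _).sub_mem (Pool.Agent.Helper10.JET.Sbx.X_mem_PU _) (PU_C kq))
  · have h1 := A.bx.fR s hs0 hs l
    rw [p0_eval' hK hl0 low (fun n hn => A.bx.deg s l n hn)] at h1
    rw [Polynomial.eval_comp, Polynomial.eval_sub, Polynomial.eval_X, Polynomial.eval_C]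
    have h2 : c.R l - Polynomial.eval (c.q 0 - c.q0 s 0) (p0 K (c.F s l)) = c.γ s l := by
      rw [h1]
      show _ + _ - _ = _
      rw [Sum.elim_inl]
      ring
    rw [h2]
    exact A.bx.fγ s hs0 hs l

theorem K_le_O (A : c.Ax w z ρ) {s : ℝ} (hs0 : 0 ≤ s) (hs : w z * s ≤ 1) : c.K s ≤ c.O :=
  (A.bx.pt s hs0 hs).trans (sup_le_sup (vd_mono _ hs) (vd_mono _ hs))

theorem t_le_O : dg (c.q 0) 1 ≤ c.O := (dg_le_vd c.q 1 0).trans le_sup_left

theorem R_le_O (j : Fin N) : dg (c.R j) 1 ≤ c.O := (dg_le_vd c.R 1 j).trans le_sup_right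

theorem nl_of (A : c.Ax w z ρ) : NL c.O c.xi := fun L hL hi => le_bot_iff.mp (by
  rw [← A.bx.K_zero]
  exact A.lb.lab 0 le_rfl (by rw [mul_zero]; exact one_pos) L hL fun i => (hi i).trans le_sup_left)

/-- there are types -/
theorem ne_of (A : c.Ax w z ρ) : Nonempty (Fin r) := by
  by_contra hc
  rw [not_nonempty_iff] at hc
  have h1 := nl_of A (dg (c.q 0) 1) t_le_O fun i => (hc.false i).elim
  have h2 := H_t A
  rw [h1, H_bot] at h2
  exact zero_ne_one h2

theorem cf_PU (i : Fin r) (j : Fin N) : py (c.cf i j) ∈ PU (c.xi i) :=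
  py_PU ((Pool.Agent.Helper5.DO.cf_le_cv i j).trans le_sup_right)

/-- derivatives of the lowest coordinate are known to the point -/
theorem tc_known_of (A : c.Ax w z ρ) (low : ∀ j, w l ≤ w j) (i : Fin r) {s : ℝ} (hs0 : 0 ≤ s) (hs : w z * s ≤ 1)
    (m : ℕ) {κ : ℝ} (hκ : κ ≤ w l * s - m * s) (hκ1 : κ ≤ 1) : dg (tc (py (c.cf i l)) (c.q 0) m) κ ≤ c.O := by
  refine near_known (A.ln.time i) t_le_O hs0 (sc_lt A hs0 hs) (A.bx.xi s hs0 hs i) (K_le_O A hs0 hs) (cf_PU i l) ?_ ?_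
    (jbx A low hs0 hs) m hκ hκ1
  · rw [py_eval]
    exact (A.ln.curve i l).symm
  · exact (mul_le_mul_of_nonneg_right (A.wz l) hs0).trans hs

/-- derivatives of the lowest coordinate are common to the types -/
theorem tc_common_of (A : c.Ax w z ρ) (low : ∀ j, w l ≤ w j) (i i' : Fin r) {s : ℝ} (hs0 : 0 ≤ s) (hs : w z * s ≤ 1)
    (m : ℕ) {κ : ℝ} (hκ : κ ≤ w l * s - m * s) :
    tc (py (c.cf i l)) (c.q 0) m - tc (py (c.cf i' l)) (c.q 0) m ∈ Id S κ := by
  refine near_common (A.ln.time i) (A.ln.time i') hs0 (sc_lt A hs0 hs) (A.bx.xi s hs0 hs i) (A.bx.xi s hs0 hs i')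
    (cf_PU i l) (cf_PU i' l) ?_ ?_ ?_ (jbx A low hs0 hs) m hκ
  · rw [py_eval]
    exact (A.ln.curve i l).symm
  · rw [py_eval]
    exact (A.ln.curve i' l).symm
  · exact (mul_le_mul_of_nonneg_right (A.wz l) hs0).trans hs

/-- **[KNAT]** the lowest vertical weight is a natural number -/
theorem knat (A : c.Ax w z ρ) (hd : ∀ i j (k : Fin (c.g + 1)), w j < ((k : ℕ) : ℝ) → c.cf i j k = 0)
    (low : ∀ j, w l ≤ w j) (hn : ∀ (D : ℕ) (κ : ℝ), 0 < κ → κ ≤ 1 → Pool.Agent.Helper5.DO.NR D c.pt ⊥ κ) :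
    ∃ K : ℕ, 2 ≤ K ∧ w l = K := by
  have hi := ne_of A
  have hw1 := A.w1 l
  have hwz := A.w1 z
  have hlz := A.wz l
  have key : ∃ K : ℕ, w l = K := by
    by_contra hc
    push Not at hc
    obtain ⟨K0, hK0⟩ : ∃ K0 : ℕ, K0 = ⌊w l⌋₊ := ⟨_, rfl⟩
    have h1 : (K0 : ℝ) < w l := lt_of_le_of_ne (by rw [hK0]; exact Nat.floor_le (by linarith)) (Ne.symm (hc K0))
    have h2 : ∀ m : ℕ, (m : ℝ) < w l → (m : ℝ) ≤ K0 := by
      intro m hm
      have h3 : m ≤ K0 := by
        rw [hK0]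
        exact Nat.le_floor hm.le
      exact_mod_cast h3
    obtain ⟨s, hs⟩ : ∃ s, s = 1 / w z := ⟨_, rfl⟩
    have hs0 : 0 < s := by rw [hs]; positivity
    have hws : w z * s = 1 := by rw [hs]; field_simp
    have hκ0 : 0 < (w l - K0) * s := mul_pos (by linarith) hs0
    have hκ1 : (w l - K0) * s ≤ 1 := by
      rw [← hws]
      have : (0 : ℝ) ≤ K0 := Nat.cast_nonneg _
      exact mul_le_mul_of_nonneg_right (by linarith) hs0.le
    have hm : ∀ m : ℕ, (m : ℝ) < w l → (w l - K0) * s ≤ w l * s - m * s := by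
      intro m h
      have h3 := mul_le_mul_of_nonneg_right (h2 m h) hs0.le
      linarith
    have hN := (hn (max c.g 1) _ hκ0 hκ1).sub (![Sum.inl 0, Sum.inr l] : Fin 2 → Fin (0 + 1) ⊕ Fin N) (by
      intro a b hab
      fin_cases a <;> fin_cases b
      · rfl
      · cases hab
      · cases hab
      · rfl)
    have e : (fun a => c.pt ((![Sum.inl 0, Sum.inr l] : Fin 2 → Fin (0 + 1) ⊕ Fin N) a)) = ![c.q 0, c.R l] := by
      funext a
      fin_cases a <;> rfl
    rw [e] at hN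
    obtain ⟨K, hK⟩ := weight_nat' (nl_of A) (fun i => py (c.cf i l)) (fun i => cf_PU i l) (t := c.q 0) (y := c.R l)
      (fun i => by
        rw [py_eval]
        exact (A.ln.curve i l).symm) t_le_O (D := max c.g 1) (le_max_right _ _)
      (fun i => (py_deg _).trans (le_max_left _ _)) (w := w l) hκ0 hκ1
      (fun i m h => tc_known_of A low i hs0.le hws.le m (hm m h) hκ1)
      (fun i i' m h => tc_common_of A low i i' hs0.le hws.le m (hm m h)) (fun i m h => by
        have h3 : tc (py (c.cf i l)) (c.q 0) m = 0 := by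
          unfold Pool.Agent.Helper10.JET.tc
          have h4 : Polynomial.hasseDeriv m (py (c.cf i l)) = 0 := by
            ext a
            rw [Polynomial.hasseDeriv_coeff, Polynomial.coeff_zero, Pool.Agent.Helper5.DO.py_coeff]
            split_ifs with h5
            · rw [hd i l _ (h.trans_le (by
                push_cast
                have : (0 : ℝ) ≤ a := Nat.cast_nonneg _
                linarith)), mul_zero]
            · rw [mul_zero]
          rw [h4, Polynomial.eval_zero]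
        rw [h3]
        exact (Id S _).zero_mem) hN
    exact hc K hK
  obtain ⟨K, hK⟩ := key
  refine ⟨K, ?_, hK⟩
  rw [hK] at hw1
  have : 1 < K := by exact_mod_cast hw1
  omega

end

end Pool.Agent.Helper5.BLD
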