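import Pool.Agent.Helper10.BLD.St
import Pool.Agent.Helper24.PR.Prq
import Pool.Agent.Helper24.PR.Nri
import Pool.Agent.Helper32.BF2.Sc
import Pool.Agent.Helper5.HB.Lbl

/-! [NRM]: no relations at the points of the corners of the class `CCo` (the hull of the members is full). -/

set_option autoImplicit false

namespace Pool.Agent.Helper5.BLD

open Finset Filter Topology Pool.Agent.Helper69.RK Pool.Agent.Helper31.EC Pool.Agent.Helper31.EC.Sp
open Pool.Agent.Helper31.EC.QS Pool.Agent.Helper40.EL Pool.Agent.Helper89.LX Pool.Agent.Helper84.MT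
open Pool.Agent.Helper36.AM Pool.Agent.Helper13.AM Pool.Agent.Helper10.BLD
open Pool.Agent.Helper57.TA (rcst dg_rcst)
open Pool.Agent.Helper5.HB (cq)
open Pool.Agent.Helper24.PR (deg_map nr_img vol_of_volO)

noncomputable section

variable {S T : Sp} {D : ℕ}

/-- small on a typical event: small -/
theorem mem_of_rest {E : ∀ k, (S.F k).Ω → Prop} (ht : Typ E) (hE : 0 < ul (S.pr E)) {f : QS S} {r : ℝ} (hr : r ≤ 1)
    (h : QS.rest E hE f ∈ Id (S.rest E) r) : f ∈ Id S r := by
  obtain ⟨F, rfl⟩ := QS.mk_surj f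
  rw [Pool.Agent.Helper32.BF2.rest_mem_iff] at h
  rw [mk_mem_Id hr, TR.ag_iff_levels]
  intro δ hδ
  refine ((h δ hδ).and ht).mono (Eventually.of_forall fun k ω _ hω => ?_)
  have h2 := hω.1 hω.2
  rw [min_eq_left hr] at h2
  rw [TR.ev_zero, sub_zero]
  exact h2

/-- no relation on a typical event -/
theorem nr_of_rest {E : ∀ k, (S.F k).Ω → Prop} (ht : Typ E) (hE : 0 < ul (S.pr E)) {σ : Type} {x : σ → QS S} {B : S.L}
    {r : ℝ} (hr : r ≤ 1) (h : Helper5.DO.NR D (fun i => QS.rest E hE (x i)) (restL E hE B) r) :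
    Helper5.DO.NR D x B r := by
  intro P hd hP he m
  have h1 := h (MvPolynomial.map (QS.rest E hE) P) (deg_map _ P hd) (by
    intro m
    rw [MvPolynomial.coeff_map, QS.rest_dg]
    exact restL_mono E hE (hP m)) (by
    have h2 : MvPolynomial.eval (fun i => QS.rest E hE (x i)) (MvPolynomial.map (QS.rest E hE) P) =
        QS.rest E hE (MvPolynomial.eval x P) := (MvPolynomial.map_eval (QS.rest E hE) x P).symm
    rw [h2]
    exact Pool.Agent.Helper82.TP.rest_mem_Id E hE he) m
  rw [MvPolynomial.coeff_map] at h1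
  exact mem_of_rest ht hE hr h1

/-! ### linear change of the coordinates -/

section

variable {M d N : ℕ} {w : Fin (M + 1) → ℝ}

/-- the coordinates as a sum type -/
def eqv (P : Spl w d N) : Fin (d + 1) ⊕ Fin N ≃ Fin (M + 1) :=
  Equiv.ofBijective (Sum.elim P.bI P.vI) (by
    constructor
    · intro a b h
      rcases a with a | a <;> rcases b with b | b
      · exact congrArg Sum.inl (P.sb.injective h)
      · exact absurd h (P.bv a b).ne
      · exact absurd h (P.bv b a).ne'
      · exact congrArg Sum.inr (P.sv.injective h)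
    · intro a
      rcases P.cov a with ⟨i, h⟩ | ⟨i, h⟩
      · exact ⟨Sum.inl i, h⟩
      · exact ⟨Sum.inr i, h⟩)

theorem eqv_inl (P : Spl w d N) (i : Fin (d + 1)) : (eqv P).symm (P.bI i) = Sum.inl i :=
  (Equiv.symm_apply_eq _).mpr rfl

theorem eqv_inr (P : Spl w d N) (i : Fin N) : (eqv P).symm (P.vI i) = Sum.inr i :=
  (Equiv.symm_apply_eq _).mpr rfl

variable (S) in
/-- the new coordinates as polynomials of the old ones -/
def cP (P : Spl w d N) (A : Matrix (Fin (d + 1)) (Fin (d + 1)) ℝ) :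
    Fin (d + 1) ⊕ Fin N → MvPolynomial (Fin (M + 1)) (QS S) :=
  Sum.elim (fun i => ∑ j, MvPolynomial.C (rcst S (A i j)) * MvPolynomial.X (P.bI j)) fun j => MvPolynomial.X (P.vI j)

variable (S) in
/-- the old coordinates as polynomials of the new ones -/
def cG (P : Spl w d N) (B : Matrix (Fin (d + 1)) (Fin (d + 1)) ℝ) (a : Fin (M + 1)) :
    MvPolynomial (Fin (d + 1) ⊕ Fin N) (QS S) :=
  Sum.elim (fun i => ∑ j, MvPolynomial.C (rcst S (B i j)) * MvPolynomial.X (Sum.inl j))
    (fun j => MvPolynomial.X (Sum.inr j)) ((eqv P).symm a)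

theorem cG_inl (P : Spl w d N) (B : Matrix (Fin (d + 1)) (Fin (d + 1)) ℝ) (i : Fin (d + 1)) :
    cG S P B (P.bI i) = ∑ j, MvPolynomial.C (rcst S (B i j)) * MvPolynomial.X (Sum.inl j) := by
  unfold cG
  rw [eqv_inl]
  rfl

theorem cG_inr (P : Spl w d N) (B : Matrix (Fin (d + 1)) (Fin (d + 1)) ℝ) (i : Fin N) :
    cG S P B (P.vI i) = MvPolynomial.X (Sum.inr i) := by
  unfold cG
  rw [eqv_inr]
  rfl

theorem cP_inl (P : Spl w d N) (A : Matrix (Fin (d + 1)) (Fin (d + 1)) ℝ) (i : Fin (d + 1)) :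
    cP S P A (Sum.inl i) = ∑ j, MvPolynomial.C (rcst S (A i j)) * MvPolynomial.X (P.bI j) := rfl

theorem cP_inr (P : Spl w d N) (A : Matrix (Fin (d + 1)) (Fin (d + 1)) ℝ) (i : Fin N) :
    cP S P A (Sum.inr i) = MvPolynomial.X (P.vI i) := rfl

theorem rC_mem {σ : Type} (B : S.L) (c : ℝ) : (MvPolynomial.C (rcst S c) : MvPolynomial σ (QS S)) ∈ PK B :=
  C_mem (by
    rw [dg_rcst]
    exact bot_le)

theorem cP_PK (P : Spl w d N) (A : Matrix (Fin (d + 1)) (Fin (d + 1)) ℝ) (B : S.L) (i : Fin (d + 1) ⊕ Fin N) :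
    cP S P A i ∈ PK B := by
  rcases i with i | i
  · rw [cP_inl]
    exact Subring.sum_mem (PK B) fun j _ => (PK B).mul_mem (rC_mem B _) (X_mem B _)
  · rw [cP_inr]
    exact X_mem B _

theorem totalDegree_X_le' {σ : Type} {R : Type*} [CommRing R] (i : σ) : (MvPolynomial.X i : MvPolynomial σ R).totalDegree ≤ 1 := by
  classical
  exact (MvPolynomial.totalDegree_monomial_le _ _).trans (by simp)

theorem cP_deg (P : Spl w d N) (A : Matrix (Fin (d + 1)) (Fin (d + 1)) ℝ) (i : Fin (d + 1) ⊕ Fin N) :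
    (cP S P A i).totalDegree ≤ 1 := by
  rcases i with i | i
  · rw [cP_inl]
    refine MvPolynomial.totalDegree_finsetSum_le fun j _ => ?_
    refine (MvPolynomial.totalDegree_mul _ _).trans ?_
    rw [MvPolynomial.totalDegree_C, zero_add]
    exact totalDegree_X_le' _
  · rw [cP_inr]
    exact totalDegree_X_le' _

theorem cP_bind (P : Spl w d N) {A : Matrix (Fin (d + 1)) (Fin (d + 1)) ℝ} (hA : IsUnit A.det)
    (i : Fin (d + 1) ⊕ Fin N) : MvPolynomial.bind₁ (cG S P A⁻¹) (cP S P A i) = MvPolynomial.X i := by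
  rcases i with i | i
  · rw [cP_inl, map_sum]
    have e1 : ∀ j, MvPolynomial.bind₁ (cG S P A⁻¹)
        (MvPolynomial.C (rcst S (A i j)) * MvPolynomial.X (P.bI j)) =
        ∑ l, MvPolynomial.C (rcst S (A i j * A⁻¹ j l)) * MvPolynomial.X (Sum.inl l) := by
      intro j
      rw [map_mul, MvPolynomial.bind₁_C_right, MvPolynomial.bind₁_X_right, cG_inl, Finset.mul_sum]
      refine Finset.sum_congr rfl fun l _ => ?_
      rw [map_mul, MvPolynomial.C_mul, mul_assoc]
    rw [Finset.sum_congr rfl fun j _ => e1 j, Finset.sum_comm]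
    have e2 : ∀ l : Fin (d + 1), ∑ j, MvPolynomial.C (σ := Fin (d + 1) ⊕ Fin N) (rcst S (A i j * A⁻¹ j l)) *
        MvPolynomial.X (Sum.inl l) = if i = l then MvPolynomial.X (Sum.inl l) else 0 := by
      intro l
      rw [← Finset.sum_mul, ← map_sum, ← map_sum]
      have e3 : ∑ j, A i j * A⁻¹ j l = (A * A⁻¹) i l := rfl
      rw [e3, Matrix.mul_nonsing_inv A hA, Matrix.one_apply]
      split_ifs
      · rw [map_one, map_one, one_mul]
      · rw [map_zero, map_zero, zero_mul]
    rw [Finset.sum_congr rfl fun l _ => e2 l, Finset.sum_ite_eq, if_pos (Finset.mem_univ _)]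
  · rw [cP_inr, MvPolynomial.bind₁_X_right, cG_inr]

theorem cP_eval (P : Spl w d N) (A : Matrix (Fin (d + 1)) (Fin (d + 1)) ℝ) (x : Fin (M + 1) → QS S) :
    (fun i => MvPolynomial.eval x (cP S P A i)) =
      Sum.elim (fun i => ∑ j, rcst S (A i j) * x (P.bI j)) fun j => x (P.vI j) := by
  funext i
  rcases i with i | i
  · rw [cP_inl, map_sum]
    refine Finset.sum_congr rfl fun j _ => ?_
    rw [map_mul, MvPolynomial.eval_C, MvPolynomial.eval_X]
  · rw [cP_inr]
    exact MvPolynomial.eval_X _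

/-- no relation: real linear coordinates of the base -/
theorem nr_lin (P : Spl w d N) {A : Matrix (Fin (d + 1)) (Fin (d + 1)) ℝ} (hA : IsUnit A.det)
    {x : Fin (M + 1) → QS S} {B : S.L} {r : ℝ} (h : Helper5.DO.NR D x B r) :
    Helper5.DO.NR D (Sum.elim (fun i => ∑ j, rcst S (A i j) * x (P.bI j)) fun j => x (P.vI j)) B r := by
  rw [← cP_eval P A x]
  exact nr_img h (cP S P A) (cP_PK P A B) (cP_deg P A) (cG S P A⁻¹) (cP_bind P hA)

/-! ### the row -/

/-- members with full hull: no relation of any degree over the base, at all points of extensions -/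
theorem nr_member {g r : ℕ} {s : MSys S (M + 1) (lin g) (Fin r)} (h : volO s 0 = (M : ℝ) + 1) (p : Pj T S) (D : ℕ)
    {κ : ℝ} (h0 : 0 < κ) (h1 : κ ≤ 1) : Helper5.DO.NR D (fun i => p.qs (cq s.Q i)) (⊥ : T.L) κ := by
  have hv := vol_of_volO s (Nat.succ_pos M) (by rw [h]; push_cast; ring) D
  have ht : Typ (S := T) (fun _ _ => True) := Typ_true
  have hE : 0 < ul (T.pr fun _ _ => True) := ul_pr_typ_pos (E := fun _ _ => True) ht
  have h2 := Pool.Agent.Helper5.HB.NR_bot_of_vol s.Q (s.exists_can D 0).choose_spec.1 hv p (fun _ _ => True) hE h0 h1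
  refine nr_of_rest ht hE h1 ?_
  rw [restL_bot]
  exact h2

end

/-- [NRM] is proved -/
theorem st_nrm (M : ℕ) : ST_NRM M := by
  intro Cl g r w ρ TT hT d N r' P T c hc D κ h0 h1
  obtain ⟨E, hE, S, t, e, he, he1, p, κ', V, A, hty, ht, _, hA, hq, hR, _⟩ := hc.vw
  have h2 := nr_member (hT.hull _ _ (hT.trn S t ht e he he1)) p D h0 h1
  have h3 := nr_lin P hA h2
  refine nr_of_rest hty hE h1 ?_
  rw [restL_bot]
  have e1 : (fun i => QS.rest E hE (c.pt i)) = Sum.elim (fun i => ∑ j, rcst _ (A i j) *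
      p.qs (cq (t.trn e he he1).Q (P.bI j))) fun j => p.qs (cq (t.trn e he he1).Q (P.vI j)) := by
    funext i
    rcases i with i | i
    · show QS.rest E hE (c.q i) = _
      rw [hq]
      show p.qs (cQ S.tr e he he1 (∑ j, rcst S (A i j) * qc t.Q (P.bI j))) = _
      rw [map_sum, map_sum]
      refine Finset.sum_congr rfl fun j _ => ?_
      rw [map_mul, map_mul]
      rfl
    · show QS.rest E hE (c.R i) = _
      rw [hR]
      rfl
  rw [e1]
  exact h3

end

end Pool.Agent.Helper5.BLD
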